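import Mathlib

/-! # MP_939ffc_an: the threshold tends to one -/

namespace BM939

/-- PROOF: `(4n - 2) log (2n) ≤ n (n - 2) log (1 + ε)` for large `n` (`log n = o(n)`), or by hand. -/
theorem asym {ε : ℝ} (hε : 0 < ε) :
    ∃ N : ℕ, 3 ≤ N ∧ ∀ n : ℕ, N ≤ n → (2 * (n : ℝ)) ^ (4 * n - 2) ≤ (1 + ε) ^ (n * (n - 2)) := by
  have h1 : (1 : ℝ) < 1 + ε := by linarith
  have h2 := tendsto_pow_const_div_const_pow_of_one_lt 12 h1
  have h3 : ∀ᶠ n : ℕ in Filter.atTop, (n : ℝ) ^ 12 / (1 + ε) ^ n < 1 / 2 ^ 12 :=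
    h2.eventually (gt_mem_nhds (by positivity))
  obtain ⟨N, hN⟩ := Filter.eventually_atTop.1 h3
  refine ⟨max N 3, le_max_right _ _, ?_⟩
  intro n hn
  have hn3 : 3 ≤ n := le_trans (le_max_right _ _) hn
  have h4 := hN n (le_trans (le_max_left _ _) hn)
  have hp : (0 : ℝ) < (1 + ε) ^ n := pow_pos (by linarith) n
  rw [div_lt_iff₀ hp] at h4
  have h5 : (2 * (n : ℝ)) ^ 12 ≤ (1 + ε) ^ n := by
    rw [mul_pow]
    have : (2 : ℝ) ^ 12 * (n : ℝ) ^ 12 < 2 ^ 12 * (1 / 2 ^ 12 * (1 + ε) ^ n) :=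
      mul_lt_mul_of_pos_left h4 (by positivity)
    have e : (2 : ℝ) ^ 12 * (1 / 2 ^ 12 * (1 + ε) ^ n) = (1 + ε) ^ n := by
      field_simp
    linarith
  have hn1 : (1 : ℝ) ≤ 2 * (n : ℝ) := by
    have : (3 : ℝ) ≤ (n : ℝ) := by exact_mod_cast hn3
    linarith
  calc (2 * (n : ℝ)) ^ (4 * n - 2) ≤ (2 * (n : ℝ)) ^ (12 * (n - 2)) :=
        pow_le_pow_right₀ hn1 (by omega)
    _ = ((2 * (n : ℝ)) ^ 12) ^ (n - 2) := by rw [pow_mul]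
    _ ≤ ((1 + ε) ^ n) ^ (n - 2) := pow_le_pow_left₀ (by positivity) h5 _
    _ = (1 + ε) ^ (n * (n - 2)) := by rw [← pow_mul]

end BM939
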