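import Pool.Agent.Lib.MP_939ffc_anG.Crit

/-! # MP_939ffc_an: the criterion with a constant -/

open MeasureTheory Set Metric Filter Topology
open scoped ENNReal NNReal Pointwise
open Pool.Agent.Lib.MP_deb14e_an Pool.Agent.MPdeb14eM

namespace BM939

private theorem critK_exp {m : ℕ} (hm : 1 ≤ m) :
    (m + 1) * ((m + 1 - 2) * (m + 1 + 1)) + 2 + m = m * ((m + 1) ^ 2 - 1) := by
  obtain ⟨k, rfl⟩ : ∃ k, m = k + 1 := ⟨m - 1, by omega⟩
  have e1 : k + 1 + 1 - 2 = k := by omega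
  have e2 : (k + 1 + 1) ^ 2 - 1 = (k + 1) * (k + 3) := by
    have : (k + 1 + 1) ^ 2 = (k + 1) * (k + 3) + 1 := by ring
    omega
  rw [e1, e2]
  ring


theorem crit_K {m : ℕ} (hm : 2 ≤ m) {Ω : Set (E (m + 1))} (hΩ : ConvexDomain Ω) {t : ℝ} (ht : 0 < t)
    (hvol : volume (ball (0 : E (m + 1)) t) = volume Ω)
    {K : ℝ} (hK : 0 ≤ K)
    (hM : momentum Ω 0 ≤ K * (t ^ 2 * perimeter (m + 1) (ball (0 : E (m + 1)) t) *
      (perimeter (m + 1) Ω / perimeter (m + 1) (ball (0 : E (m + 1)) t)) ^ ((m + 1) ^ 2 - 1)))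
    (c : E (m + 1)) {r : ℝ} (hr : 0 < r) : calF Ω ≤ K * calF (ball c r) := by
  have hh : 0 < hausdorffConst (m : ℝ) := hausdorffConst_pos (Nat.cast_nonneg m)
  have hk : 0 < kap m := kap_pos m
  have hω : 0 < vb (m + 1) := vb_pos (m + 1)
  obtain ⟨P1, hP1⟩ : ∃ P1, P1 = hausdorffConst m * kap m * (m + 1) * vb (m + 1) := ⟨_, rfl⟩
  have hP1p : 0 < P1 := by rw [hP1]; positivity
  have hPt : perimeter (m + 1) (ball (0 : E (m + 1)) t) = P1 * t ^ m := by
    rw [perimeter_ball ht, hP1]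
  have hPb : perimeter (m + 1) (ball (0 : E (m + 1)) 1) = P1 := by
    rw [perimeter_ball one_pos, hP1, one_pow, mul_one]
  have hVb : (volume (ball (0 : E (m + 1)) 1)).toReal = vb (m + 1) := rfl
  have hV : (volume Ω).toReal = vb (m + 1) * t ^ (m + 1) := by
    rw [← hvol, vol_ball ht]
  have hP : 0 < perimeter (m + 1) Ω := perimeter_pos hΩ
  have h0 : ⨅ x₀ : E (m + 1), momentum Ω x₀ ≤ momentum Ω 0 :=
    ciInf_le ⟨0, by rintro _ ⟨x, rfl⟩; exact Main_momentum_nonneg Ω x⟩ 0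
  have hb : perimeter (m + 1) (ball (0 : E (m + 1)) 1) ≤
      ⨅ x₀ : E (m + 1), momentum (ball (0 : E (m + 1)) 1) x₀ :=
    le_ciInf fun x₀ => momentum_ball_ge x₀
  rw [calF_ball (by omega) c 0 hr one_pos]
  unfold calF
  rw [hVb, hV]
  rw [hPb] at hb ⊢
  rw [hPt] at hM
  have hexp := critK_exp (m := m) (by omega)
  obtain ⟨k, hkd⟩ : ∃ k, k = (m + 1 - 2) * (m + 1 + 1) := ⟨_, rfl⟩
  obtain ⟨N, hNd⟩ : ∃ N, N = (m + 1) ^ 2 - 1 := ⟨_, rfl⟩
  rw [← hkd, ← hNd] at hexp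
  rw [← hNd] at hM
  rw [← hkd, ← hNd]
  have hT : (t ^ (m + 1)) ^ k * t ^ 2 * t ^ m = (t ^ m) ^ N := by
    rw [← pow_mul, ← pow_mul, ← pow_add, ← pow_add, hexp]
  calc (vb (m + 1) * t ^ (m + 1)) ^ k / perimeter (m + 1) Ω ^ N *
        ⨅ x₀ : E (m + 1), momentum Ω x₀
      ≤ (vb (m + 1) * t ^ (m + 1)) ^ k / perimeter (m + 1) Ω ^ N * momentum Ω 0 :=
        mul_le_mul_of_nonneg_left h0 (by positivity)
    _ ≤ (vb (m + 1) * t ^ (m + 1)) ^ k / perimeter (m + 1) Ω ^ N *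
          (K * (t ^ 2 * (P1 * t ^ m) * (perimeter (m + 1) Ω / (P1 * t ^ m)) ^ N)) :=
        mul_le_mul_of_nonneg_left hM (by positivity)
    _ = K * (vb (m + 1) ^ k / P1 ^ N * P1) := by
        rw [div_pow, mul_pow P1, mul_pow (vb (m + 1)), ← hT]
        have ha : (t ^ (m + 1)) ^ k ≠ 0 := by positivity
        have hbm : t ^ m ≠ 0 := by positivity
        have hPN : perimeter (m + 1) Ω ^ N ≠ 0 := by positivity
        have hP1N : P1 ^ N ≠ 0 := by positivity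
        generalize (t ^ (m + 1)) ^ k = a at *
        generalize t ^ m = b at *
        generalize perimeter (m + 1) Ω ^ N = q at *
        generalize P1 ^ N = z at *
        field_simp
    _ ≤ _ := mul_le_mul_of_nonneg_left (mul_le_mul_of_nonneg_left hb (by positivity)) hK

end BM939
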