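import Pool.Agent.Lib.MP_939ffc_anG.Main8

/-! # MP_939ffc_an: notions of the main theorem on large isoperimetric ratios -/

open MeasureTheory Set Metric
open Pool.Agent.Lib.MP_deb14e_an Pool.Agent.MPdeb14eM

namespace BM939

/-- `t` is the volume radius of `Ω`: the ball of radius `t` has the volume of `Ω`. -/
def VolRadius {n : ℕ} (Ω : Set (E n)) (t : ℝ) : Prop :=
  0 < t ∧ volume (ball (0 : E n) t) = volume Ω

/-- The isoperimetric ratio `P(Ω) / P(B)`, `B` the ball of radius `t`. -/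
noncomputable def isoRatio {n : ℕ} (Ω : Set (E n)) (t : ℝ) : ℝ :=
  perimeter n Ω / perimeter n (ball (0 : E n) t)

/-- `F(Ω) ≤ F(B')` for every ball `B'`. -/
def AtMostBalls {n : ℕ} (Ω : Set (E n)) : Prop :=
  ∀ (c : E n) (r : ℝ), 0 < r → calF Ω ≤ calF (ball c r)

/-- `F(Ω) < F(B')` for every ball `B'`. -/
def BelowBalls {n : ℕ} (Ω : Set (E n)) : Prop :=
  ∀ (c : E n) (r : ℝ), 0 < r → calF Ω < calF (ball c r)

end BM939
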