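import Pool.Agent.Lib.MP_939ffc_anG.Main8
import Mathlib.Analysis.InnerProductSpace.GramSchmidtOrtho

/-! # MP_939ffc_an: the volume of a parallelepiped by Gram-Schmidt -/

open MeasureTheory Set Metric Filter Topology
open scoped ENNReal NNReal Pointwise
open Pool.Agent.Lib.MP_deb14e_an Pool.Agent.MPdeb14eM

namespace BM939

open InnerProductSpace in
private theorem gs_inner {m : ℕ} (f : Fin (m + 1) → E (m + 1)) (i : Fin (m + 1)) (u : E (m + 1))
    (hu : ∀ j < i, (inner ℝ u (gramSchmidt ℝ f j) : ℝ) = 0) :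
    (inner ℝ u (f i) : ℝ) = inner ℝ u (gramSchmidt ℝ f i) := by
  conv_lhs => rw [gramSchmidt_def'' ℝ f i]
  rw [inner_add_right, inner_sum, Finset.sum_eq_zero, add_zero]
  intro j hj
  rw [inner_smul_right, hu j (Finset.mem_Iio.mp hj), mul_zero]

open InnerProductSpace in
private theorem gs_orth {m : ℕ} (f : Fin (m + 1) → E (m + 1)) (i : Fin (m + 1)) (u : E (m + 1))
    (hu : ∀ j < i, (inner ℝ u (f j) : ℝ) = 0) (j : Fin (m + 1)) (hj : j < i) :
    (inner ℝ u (gramSchmidt ℝ f j) : ℝ) = 0 := by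
  have hm := gramSchmidt_mem_span ℝ f (le_refl j)
  refine Submodule.span_induction (p := fun x _ => (inner ℝ u x : ℝ) = 0) ?_ ?_ ?_ ?_ hm
  · rintro x ⟨k, hk, rfl⟩
    exact hu k (lt_of_le_of_lt hk hj)
  · exact inner_zero_right u
  · intro x y _ _ hx hy
    rw [inner_add_right, hx, hy, add_zero]
  · intro a x _ hx
    rw [inner_smul_right, hx, mul_zero]

open InnerProductSpace in
/-- PROOF: `volume (parallelepiped f) = ofReal |det|` (`Measure.addHaar_parallelepiped`, `OrthonormalBasis.addHaar_eq_volume`)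
for the basis `gramSchmidtOrthonormalBasis`, whose `det f` is `∏ i, ⟨e i, f i⟩` (`gramSchmidtOrthonormalBasis_det`);
`|⟨e i, f i⟩| = ‖gramSchmidt ℝ f i‖`, which is `‖f 0‖` for `i = 0` and, for `i ≠ 0`, at least
`|⟨u, gramSchmidt ℝ f i⟩| = |⟨u, f i⟩| ≥ w` as `u` is orthogonal to the span of `f j`, `j < i`. If some
`gramSchmidt ℝ f i` is zero then the left side is zero. -/
theorem det_ge {m : ℕ} (f : Fin (m + 1) → E (m + 1)) {w : ℝ} (hw : 0 < w)
    (h : ∀ i, i ≠ 0 → ∃ u : E (m + 1), ‖u‖ = 1 ∧ (∀ j < i, (inner ℝ u (f j) : ℝ) = 0) ∧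
        w ≤ |(inner ℝ u (f i) : ℝ)|) :
    ENNReal.ofReal (‖f 0‖ * w ^ m) ≤ volume (parallelepiped f) := by
  classical
  have hfr : Module.finrank ℝ (E (m + 1)) = Fintype.card (Fin (m + 1)) := by
    simp
  let b := gramSchmidtOrthonormalBasis hfr f
  have h0 : volume (parallelepiped f) = ENNReal.ofReal |b.toBasis.det f| := by
    have h1 := Measure.addHaar_parallelepiped b.toBasis f
    rw [OrthonormalBasis.addHaar_eq_volume] at h1
    exact h1
  by_cases hf0 : f 0 = 0
  · rw [hf0, norm_zero, zero_mul, ENNReal.ofReal_zero]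
    exact zero_le
  rw [h0]
  apply ENNReal.ofReal_le_ofReal
  have h2 : b.toBasis.det f = ∏ i, (inner ℝ (b i) (f i) : ℝ) := gramSchmidtOrthonormalBasis_det hfr f
  rw [h2, Finset.abs_prod]
  have hw' : ∀ i, i ≠ 0 → w ≤ ‖gramSchmidt ℝ f i‖ := by
    intro i hi
    obtain ⟨u, hu1, hu2, hu3⟩ := h i hi
    rw [gs_inner f i u (gs_orth f i u hu2)] at hu3
    refine hu3.trans ?_
    have := abs_real_inner_le_norm u (gramSchmidt ℝ f i)
    rwa [hu1, one_mul] at this
  have h00 : gramSchmidt ℝ f 0 = f 0 := by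
    rw [gramSchmidt_def]
    have : Finset.Iio (0 : Fin (m + 1)) = ∅ := by
      ext j
      simp
    rw [this, Finset.sum_empty, sub_zero]
  have hne : ∀ i, gramSchmidt ℝ f i ≠ 0 := by
    intro i
    by_cases hi : i = 0
    · rw [hi, h00]
      exact hf0
    · intro hz
      have := hw' i hi
      rw [hz, norm_zero] at this
      linarith
  have hbi : ∀ i, |(inner ℝ (b i) (f i) : ℝ)| = ‖gramSchmidt ℝ f i‖ := by
    intro i
    have hn : ‖gramSchmidt ℝ f i‖ ≠ 0 := norm_ne_zero_iff.mpr (hne i)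
    have hb : b i = (‖gramSchmidt ℝ f i‖⁻¹ : ℝ) • gramSchmidt ℝ f i := by
      have hnn : gramSchmidtNormed ℝ f i ≠ 0 := by
        unfold gramSchmidtNormed
        exact smul_ne_zero (by simpa using hne i) (hne i)
      exact (gramSchmidtOrthonormalBasis_apply hfr hnn)
    have h3 : (inner ℝ (b i) (f i) : ℝ) = inner ℝ (b i) (gramSchmidt ℝ f i) := by
      apply gs_inner
      intro j hj
      rw [hb, inner_smul_left, gramSchmidt_orthogonal ℝ f hj.ne', mul_zero]
    rw [h3, hb, inner_smul_left, real_inner_self_eq_norm_sq]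
    have : (starRingEnd ℝ) (‖gramSchmidt ℝ f i‖⁻¹) * ‖gramSchmidt ℝ f i‖ ^ 2
        = ‖gramSchmidt ℝ f i‖ := by
      simp only [conj_trivial]
      field_simp
    rw [this, abs_norm]
  rw [Finset.prod_congr rfl fun i _ => hbi i, Fin.prod_univ_succ, h00]
  have h5 : w ^ m ≤ ∏ i : Fin m, ‖gramSchmidt ℝ f i.succ‖ := by
    have : w ^ m = ∏ _i : Fin m, w := by
      rw [Finset.prod_const, Finset.card_univ, Fintype.card_fin]
    rw [this]
    exact Finset.prod_le_prod (fun _ _ => hw.le) fun i _ => hw' _ (Fin.succ_ne_zero i)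
  exact mul_le_mul_of_nonneg_left h5 (norm_nonneg _)

end BM939
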