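import Pool.Agent.Lib.MP_939ffc_anG.Main8

/-! # MP_939ffc_an: greedy choice of vectors -/

open MeasureTheory Set Metric Filter Topology
open scoped ENNReal NNReal Pointwise
open Pool.Agent.Lib.MP_deb14e_an Pool.Agent.MPdeb14eM

namespace BM939

private theorem gr_unit {m k : ℕ} (hk : k < m + 1) (g : ℕ → E (m + 1)) :
    ∃ u : E (m + 1), ‖u‖ = 1 ∧ ∀ j < k, (inner ℝ u (g j) : ℝ) = 0 := by
  set S : Submodule ℝ (E (m + 1)) := Submodule.span ℝ (Set.range fun j : Fin k => g j) with hS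
  have hdim : Module.finrank ℝ S ≤ k := by
    have := finrank_range_le_card (R := ℝ) (fun j : Fin k => g j)
    rwa [Fintype.card_fin] at this
  have hne : S ≠ ⊤ := by
    intro h
    rw [h, finrank_top, finrank_euclideanSpace_fin] at hdim
    omega
  have hb : Sᗮ ≠ ⊥ := fun h => hne (Submodule.orthogonal_eq_bot_iff.mp h)
  obtain ⟨v, hv, hv0⟩ := Submodule.exists_mem_ne_zero_of_ne_bot hb
  have hn : ‖v‖ ≠ 0 := norm_ne_zero_iff.mpr hv0
  refine ⟨‖v‖⁻¹ • v, ?_, fun j hj => ?_⟩
  · rw [norm_smul, norm_inv, norm_norm, inv_mul_cancel₀ hn]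
  · have hm : g j ∈ S := Submodule.subset_span ⟨⟨j, hj⟩, rfl⟩
    rw [inner_smul_left, Submodule.inner_left_of_mem_orthogonal hm hv, mul_zero]

/-- PROOF: for every `k` (induction) there is `g : ℕ → E (m + 1)` with `g 0 = x₁`, `g i ∈ Ω` and the property for all
`0 < i ≤ k`, `i < m + 1`: the span of `g j`, `j < i`, has dimension at most `i < m + 1`, so there is a unit vector
`u` orthogonal to it, and `hw u` gives `g i` (`Function.update`). -/
theorem exists_vec {m : ℕ} {Ω : Set (E (m + 1))} {w : ℝ}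
    (hw : ∀ u : E (m + 1), ‖u‖ = 1 → ∃ x ∈ Ω, w ≤ |(inner ℝ u x : ℝ)|) {x₁ : E (m + 1)} (hx : x₁ ∈ Ω) :
    ∃ f : Fin (m + 1) → E (m + 1), (∀ i, f i ∈ Ω) ∧ f 0 = x₁ ∧
      ∀ i, i ≠ 0 → ∃ u : E (m + 1), ‖u‖ = 1 ∧ (∀ j < i, (inner ℝ u (f j) : ℝ) = 0) ∧
        w ≤ |(inner ℝ u (f i) : ℝ)| := by
  have key : ∀ k : ℕ, ∃ g : ℕ → E (m + 1), g 0 = x₁ ∧ (∀ i, g i ∈ Ω) ∧
      ∀ i, 0 < i → i ≤ k → i < m + 1 → ∃ u : E (m + 1), ‖u‖ = 1 ∧
        (∀ j < i, (inner ℝ u (g j) : ℝ) = 0) ∧ w ≤ |(inner ℝ u (g i) : ℝ)| := by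
    intro k
    induction k with
    | zero => exact ⟨fun _ => x₁, rfl, fun _ => hx, fun i hi hi' => by omega⟩
    | succ k ih =>
      obtain ⟨g, hg0, hgΩ, hg⟩ := ih
      by_cases hk : k + 1 < m + 1
      · obtain ⟨u, hu1, hu2⟩ := gr_unit hk g
        obtain ⟨x, hxΩ, hx'⟩ := hw u hu1
        refine ⟨Function.update g (k + 1) x, ?_, ?_, ?_⟩
        · rw [Function.update_of_ne (by omega)]
          exact hg0
        · intro i
          by_cases hi : i = k + 1
          · rw [hi, Function.update_self]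
            exact hxΩ
          · rw [Function.update_of_ne hi]
            exact hgΩ i
        · intro i hi hik him
          rcases Nat.lt_or_ge k i with h1 | h1
          · have h2 : i = k + 1 := by omega
            subst h2
            refine ⟨u, hu1, fun j hj => ?_, ?_⟩
            · rw [Function.update_of_ne (by omega)]
              exact hu2 j hj
            · rw [Function.update_self]
              exact hx'
          · obtain ⟨u', h3, h4, h5⟩ := hg i hi h1 him
            refine ⟨u', h3, fun j hj => ?_, ?_⟩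
            · rw [Function.update_of_ne (by omega)]
              exact h4 j hj
            · rw [Function.update_of_ne (by omega)]
              exact h5
      · exact ⟨g, hg0, hgΩ, fun i hi hik him => hg i hi (by omega) him⟩
  obtain ⟨g, hg0, hgΩ, hg⟩ := key m
  refine ⟨fun i => g i, fun i => hgΩ i, hg0, fun i hi => ?_⟩
  obtain ⟨u, h1, h2, h3⟩ := hg i (Nat.pos_of_ne_zero fun h => hi (Fin.ext h)) (by omega) i.isLt
  exact ⟨u, h1, fun j hj => h2 j hj, h3⟩

end BM939
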