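import Pool.Agent.Lib.MP_939ffc_anG.Main8

/-! # MP_939ffc_an: a small copy of the parallelepiped is contained in the convex set -/

open MeasureTheory Set Metric Filter Topology
open scoped ENNReal NNReal Pointwise
open Pool.Agent.Lib.MP_deb14e_an Pool.Agent.MPdeb14eM

namespace BM939

private theorem parIn_aux {m : ℕ} {Ω : Set (E (m + 1))} (hc : Convex ℝ Ω)
    (h0 : (0 : E (m + 1)) ∈ Ω) {f : Fin (m + 1) → E (m + 1)} (hf : ∀ i, f i ∈ Ω) :
    ((((m : ℝ) + 1)⁻¹ : ℝ) • parallelepiped f) ⊆ Ω := by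
  rintro _ ⟨x, hx, rfl⟩
  rw [mem_parallelepiped_iff] at hx
  obtain ⟨t, ht, rfl⟩ := hx
  have hm : (0 : ℝ) < (m : ℝ) + 1 := by positivity
  have e1 : ((m : ℝ) + 1)⁻¹ • ∑ i, t i • f i = ∑ i, ((m : ℝ) + 1)⁻¹ • (t i • f i) :=
    Finset.smul_sum
  show ((m : ℝ) + 1)⁻¹ • ∑ i, t i • f i ∈ Ω
  rw [e1]
  refine hc.sum_mem (fun i _ => by positivity) ?_ (fun i _ => ?_)
  · rw [Finset.sum_const, Finset.card_univ, Fintype.card_fin, nsmul_eq_mul]
    push_cast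
    exact mul_inv_cancel₀ hm.ne'
  · exact hc.smul_mem_of_zero_mem h0 (hf i) ⟨ht.1 i, ht.2 i⟩

/-- PROOF: `(1 / (m + 1)) • parallelepiped f ⊆ Ω` (a point `∑ (t i / (m + 1)) • f i` with `0 ≤ t i ≤ 1` is a convex
combination of `0` and the `f i`, `mem_parallelepiped_iff`), and `Measure.addHaar_smul`. -/
theorem par_le {m : ℕ} {Ω : Set (E (m + 1))} (hΩ : ConvexDomain Ω) (h0 : (0 : E (m + 1)) ∈ Ω)
    {f : Fin (m + 1) → E (m + 1)} (hf : ∀ i, f i ∈ Ω) :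
    volume (parallelepiped f) ≤ ENNReal.ofReal (((m : ℝ) + 1) ^ (m + 1)) * volume Ω := by
  have hm : (0 : ℝ) < (m : ℝ) + 1 := by positivity
  have h1 : volume ((((m : ℝ) + 1)⁻¹ : ℝ) • parallelepiped f) ≤ volume Ω :=
    measure_mono (parIn_aux hΩ.2.2.2 h0 hf)
  rw [Measure.addHaar_smul, finrank_euclideanSpace, Fintype.card_fin] at h1
  have e2 : |((m : ℝ) + 1)⁻¹ ^ (m + 1)| = (((m : ℝ) + 1) ^ (m + 1))⁻¹ := by
    rw [abs_of_pos (by positivity), inv_pow]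
  rw [e2] at h1
  have hp : (0 : ℝ) < ((m : ℝ) + 1) ^ (m + 1) := by positivity
  calc volume (parallelepiped f)
      = ENNReal.ofReal (((m : ℝ) + 1) ^ (m + 1)) *
          (ENNReal.ofReal ((((m : ℝ) + 1) ^ (m + 1))⁻¹) * volume (parallelepiped f)) := by
        rw [← mul_assoc, ← ENNReal.ofReal_mul hp.le, mul_inv_cancel₀ hp.ne', ENNReal.ofReal_one,
          one_mul]
    _ ≤ ENNReal.ofReal (((m : ℝ) + 1) ^ (m + 1)) * volume Ω := by gcongr

end BM939
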