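import Pool.Agent.Lib.MP_939ffc_anG.Main8
import Pool.Agent.Lib.MP_939ffc_anE.CubeVol

/-! # MP_939ffc_an: the volume of the unit ball is at most that of the cube -/

open MeasureTheory Set Metric Filter Topology
open scoped ENNReal NNReal Pointwise
open Pool.Agent.Lib.MP_deb14e_an Pool.Agent.MPdeb14eM

namespace BM939

/-- PROOF: the unit ball is contained in the cube `(-1, 1)^n` (see CubeVol.lean). -/
theorem vb_le (n : ℕ) : vb n ≤ 2 ^ n := by
  have hsub : ball (0 : E n) 1 ⊆ (MeasurableEquiv.toLp 2 (Fin n → ℝ)).symm ⁻¹'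
      Icc (fun _ => (-1 : ℝ)) (fun _ => (1 : ℝ)) := by
    intro x hx
    rw [mem_ball_zero_iff] at hx
    have h1 : ∀ i, |x i| ≤ 1 := fun i => by
      have := PiLp.norm_apply_le x i
      rw [Real.norm_eq_abs] at this
      linarith
    exact ⟨fun i => (abs_le.mp (h1 i)).1, fun i => (abs_le.mp (h1 i)).2⟩
  have hmp := EuclideanSpace.volume_preserving_symm_measurableEquiv_toLp (Fin n)
  have hvol : volume ((MeasurableEquiv.toLp 2 (Fin n → ℝ)).symm ⁻¹'
      Icc (fun _ => (-1 : ℝ)) (fun _ => (1 : ℝ))) =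
      volume (Icc (fun _ : Fin n => (-1 : ℝ)) (fun _ => (1 : ℝ))) :=
    hmp.measure_preimage_equiv _
  have hreal : (volume (Icc (fun _ : Fin n => (-1 : ℝ)) (fun _ => (1 : ℝ)))).toReal = 2 ^ n := by
    rw [Real.volume_Icc_pi_toReal (fun _ => by norm_num)]
    norm_num
  have hfin : volume (Icc (fun _ : Fin n => (-1 : ℝ)) (fun _ => (1 : ℝ))) ≠ ⊤ :=
    isCompact_Icc.measure_lt_top.ne
  unfold vb
  rw [← hreal, ← hvol]
  exact ENNReal.toReal_mono (by rw [hvol]; exact hfin) (measure_mono hsub)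

end BM939
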