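import Pool.Agent.Lib.MP_939ffc_anH.WidthC
import Pool.Agent.Lib.MP_939ffc_anH.Greedy
import Pool.Agent.Lib.MP_939ffc_anH.GramS
import Pool.Agent.Lib.MP_939ffc_anH.ParIn
import Pool.Agent.Lib.MP_939ffc_anH.VbLe

/-! # MP_939ffc_an: a bound of the circumradius -/

open MeasureTheory Set Metric Filter Topology
open scoped ENNReal NNReal Pointwise
open Pool.Agent.Lib.MP_deb14e_an Pool.Agent.MPdeb14eM

namespace BM939

private theorem radius_aux {m : ℕ} {Ω : Set (E (m + 1))} (hΩ : ConvexDomain Ω)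
    (h0 : (0 : E (m + 1)) ∈ Ω) {x₁ : E (m + 1)} (hx : x₁ ∈ Ω) {w : ℝ} (hw : 0 < w)
    (h : 2 * w * perimeter (m + 1) Ω < (volume Ω).toReal * (hausdorffConst m * kap m)) :
    ‖x₁‖ * w ^ m ≤ ((m : ℝ) + 1) ^ (m + 1) * (volume Ω).toReal := by
  have hu : ∀ u : E (m + 1), ‖u‖ = 1 → ∃ x ∈ Ω, w ≤ |(inner ℝ u x : ℝ)| := by
    intro u hu
    by_contra hcon
    push Not at hcon
    refine absurd (width hΩ hu (w := 2 * w) fun x hx y hy => ?_) (not_le.2 h)
    rw [inner_sub_right]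
    have h1 := abs_lt.1 (hcon x hx)
    have h2 := abs_lt.1 (hcon y hy)
    linarith
  obtain ⟨f, hf, hf0, hf1⟩ := exists_vec hu hx
  have h1 := (det_ge f hw hf1).trans (par_le hΩ h0 hf)
  have hfin : volume Ω ≠ ⊤ := hΩ.2.1.measure_lt_top.ne
  rw [hf0, ← ENNReal.ofReal_toReal hfin, ← ENNReal.ofReal_mul (by positivity)] at h1
  exact (ENNReal.ofReal_le_ofReal_iff (by positivity)).1 h1

theorem radius {m : ℕ} {Ω : Set (E (m + 1))} (hΩ : ConvexDomain Ω)
    (h0 : (0 : E (m + 1)) ∈ Ω) {t : ℝ} (ht : 0 < t) (hvol : volume (ball (0 : E (m + 1)) t) = volume Ω)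
    {x₁ : E (m + 1)} (hx : x₁ ∈ Ω) :
    ‖x₁‖ ≤ (2 * ((m : ℝ) + 1)) ^ (2 * m + 1) *
      (perimeter (m + 1) Ω / perimeter (m + 1) (ball (0 : E (m + 1)) t)) ^ m * t := by
  have hh : 0 < hausdorffConst (m : ℝ) := hausdorffConst_pos (Nat.cast_nonneg m)
  have hk : 0 < kap m := kap_pos m
  have hv : 0 < vb (m + 1) := vb_pos (m + 1)
  have hP : 0 < perimeter (m + 1) Ω := perimeter_pos hΩ
  have hPB : 0 < perimeter (m + 1) (ball (0 : E (m + 1)) t) :=
    perimeter_pos ⟨⟨0, mem_ball_self ht⟩, isBounded_ball, isOpen_ball, convex_ball _ _⟩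
  have hV : (volume Ω).toReal = vb (m + 1) * t ^ (m + 1) := by rw [← hvol]; exact vol_ball ht
  obtain ⟨q, hq⟩ : ∃ q, q = perimeter (m + 1) Ω / perimeter (m + 1) (ball (0 : E (m + 1)) t) :=
    ⟨_, rfl⟩
  have hq0 : 0 < q := by rw [hq]; positivity
  have hPq : perimeter (m + 1) Ω = q * (hausdorffConst m * kap m * (m + 1) * vb (m + 1) * t ^ m) := by
    rw [← perimeter_ball ht, hq, div_mul_cancel₀ _ hPB.ne']
  obtain ⟨N, hN⟩ : ∃ N : ℝ, N = (m : ℝ) + 1 := ⟨_, rfl⟩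
  have hN0 : 0 < N := by rw [hN]; positivity
  rw [← hq, ← hN]
  rw [← hN] at hPq
  have hw0 : 0 < t / (2 * q * N) := by positivity
  have hkey : ∀ w ∈ Ioo 0 (t / (2 * q * N)),
      ‖x₁‖ * w ^ m ≤ N ^ (m + 1) * (vb (m + 1) * t ^ (m + 1)) := by
    intro w hw
    have h1 := radius_aux hΩ h0 hx hw.1 (by
      rw [hPq, hV]
      have h2 : w * (2 * q * N) < t := by
        have := hw.2
        rwa [lt_div_iff₀ (by positivity)] at this
      calc 2 * w * (q * (hausdorffConst m * kap m * N * vb (m + 1) * t ^ m))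
          = (w * (2 * q * N)) * (hausdorffConst m * kap m * vb (m + 1) * t ^ m) := by ring
        _ < t * (hausdorffConst m * kap m * vb (m + 1) * t ^ m) :=
            mul_lt_mul_of_pos_right h2 (by positivity)
        _ = vb (m + 1) * t ^ (m + 1) * (hausdorffConst m * kap m) := by ring)
    rwa [hV, ← hN] at h1
  have hlim : ‖x₁‖ * (t / (2 * q * N)) ^ m ≤ N ^ (m + 1) * (vb (m + 1) * t ^ (m + 1)) := by
    have hc : Continuous fun w : ℝ => ‖x₁‖ * w ^ m := by fun_prop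
    have ht1 : Tendsto (fun w : ℝ => ‖x₁‖ * w ^ m) (𝓝[<] (t / (2 * q * N)))
        (𝓝 (‖x₁‖ * (t / (2 * q * N)) ^ m)) := (hc.tendsto _).mono_left nhdsWithin_le_nhds
    refine le_of_tendsto ht1 ?_
    filter_upwards [Ioo_mem_nhdsLT hw0] with w hw
    exact hkey w hw
  have hvb := vb_le (m + 1)
  calc ‖x₁‖ = ‖x₁‖ * (t / (2 * q * N)) ^ m * ((2 * q * N) ^ m / t ^ m) := by
        rw [div_pow]
        field_simp
    _ ≤ N ^ (m + 1) * (vb (m + 1) * t ^ (m + 1)) * ((2 * q * N) ^ m / t ^ m) :=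
        mul_le_mul_of_nonneg_right hlim (by positivity)
    _ = (N ^ (m + 1) * (2 * q * N) ^ m * t) * vb (m + 1) := by
        rw [pow_succ t]
        field_simp
    _ ≤ (N ^ (m + 1) * (2 * q * N) ^ m * t) * 2 ^ (m + 1) :=
        mul_le_mul_of_nonneg_left hvb (by positivity)
    _ = (2 * N) ^ (2 * m + 1) * q ^ m * t := by
        rw [mul_pow (2 * q), mul_pow 2 q, mul_pow 2 N]
        have e1 : 2 * m + 1 = (m + 1) + m := by ring
        rw [e1, pow_add N, pow_add (2 : ℝ)]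
        ring

end BM939
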