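import Pool.Agent.Lib.MP_939ffc_anH.Radius
import Pool.Agent.Lib.MP_939ffc_anH.CritK

/-! # MP_939ffc_an: a bound of the functional by the isoperimetric ratio for all convex sets -/

open MeasureTheory Set Metric Filter Topology
open scoped ENNReal NNReal Pointwise
open Pool.Agent.Lib.MP_deb14e_an Pool.Agent.MPdeb14eM

namespace BM939

private theorem univ_zero {m : ℕ} (hm : 2 ≤ m) {Ω : Set (E (m + 1))} (hΩ : ConvexDomain Ω)
    (h0 : (0 : E (m + 1)) ∈ Ω) {t : ℝ} (ht : 0 < t)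
    (hvol : volume (ball (0 : E (m + 1)) t) = volume Ω)
    (c : E (m + 1)) {r : ℝ} (hr : 0 < r) :
    calF Ω ≤ (2 * ((m : ℝ) + 1)) ^ (4 * m + 2) /
      (perimeter (m + 1) Ω / perimeter (m + 1) (ball (0 : E (m + 1)) t)) ^ ((m + 1) * (m - 1)) *
        calF (ball c r) := by
  have hP : 0 < perimeter (m + 1) Ω := perimeter_pos hΩ
  have hPB : 0 < perimeter (m + 1) (ball (0 : E (m + 1)) t) :=
    perimeter_pos ⟨⟨0, mem_ball_self ht⟩, isBounded_ball, isOpen_ball, convex_ball _ _⟩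
  have hrad := fun x (hx : x ∈ Ω) => radius hΩ h0 ht hvol hx
  have hmom := momentum_le_sq hΩ hrad
  refine crit_K hm hΩ ht hvol (by positivity) (hmom.trans ?_) c hr
  obtain ⟨q, hq⟩ : ∃ q, q = perimeter (m + 1) Ω / perimeter (m + 1) (ball (0 : E (m + 1)) t) :=
    ⟨_, rfl⟩
  have e1 : perimeter (m + 1) Ω = q * perimeter (m + 1) (ball (0 : E (m + 1)) t) := by
    rw [hq, div_mul_cancel₀ _ hPB.ne']
  have hq0 : 0 < q := by rw [hq]; positivity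
  rw [← hq]
  rw [e1]
  obtain ⟨k, rfl⟩ : ∃ k, m = k + 1 := ⟨m - 1, by omega⟩
  have e2 : (k + 1 + 1) ^ 2 - 1 = (k + 1 + 1) * (k + 1 - 1) + 2 * (k + 1) + 1 := by
    have h1 : k + 1 - 1 = k := by omega
    have h2 : (k + 1 + 1) ^ 2 = (k + 1 + 1) * k + 2 * (k + 1) + 1 + 1 := by ring
    rw [h1]
    omega
  obtain ⟨A, hA⟩ : ∃ A : ℝ, A = 2 * (((k + 1 : ℕ) : ℝ) + 1) := ⟨_, rfl⟩
  obtain ⟨Q, hQ⟩ : ∃ Q : ℝ, Q = perimeter (k + 1 + 1) (ball (0 : E (k + 1 + 1)) t) := ⟨_, rfl⟩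
  rw [← hA]
  rw [← hQ] at hPB ⊢
  rw [e2, pow_succ q ((k + 1 + 1) * (k + 1 - 1) + 2 * (k + 1)), pow_add q ((k + 1 + 1) * (k + 1 - 1)) (2 * (k + 1))]
  have hz : q ^ ((k + 1 + 1) * (k + 1 - 1)) ≠ 0 := by positivity
  refine le_of_eq ?_
  calc (A ^ (2 * (k + 1) + 1) * q ^ (k + 1) * t) ^ 2 * (q * Q)
      = A ^ (4 * (k + 1) + 2) * (q ^ (2 * (k + 1)) * q * t ^ 2 * Q) := by
        have e3 : 4 * (k + 1) + 2 = (2 * (k + 1) + 1) * 2 := by ring
        rw [e3, pow_mul A, mul_comm 2 (k + 1), pow_mul q]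
        ring
    _ = A ^ (4 * (k + 1) + 2) / q ^ ((k + 1 + 1) * (k + 1 - 1)) *
          (t ^ 2 * Q * (q ^ ((k + 1 + 1) * (k + 1 - 1)) * q ^ (2 * (k + 1)) * q)) := by
        generalize q ^ ((k + 1 + 1) * (k + 1 - 1)) = z at hz ⊢
        field_simp

theorem univ {m : ℕ} (hm : 2 ≤ m) {Ω : Set (E (m + 1))} (hΩ : ConvexDomain Ω) {t : ℝ} (ht : 0 < t)
    (hvol : volume (ball (0 : E (m + 1)) t) = volume Ω)
    (c : E (m + 1)) {r : ℝ} (hr : 0 < r) :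
    calF Ω ≤ (2 * ((m : ℝ) + 1)) ^ (4 * m + 2) /
      (perimeter (m + 1) Ω / perimeter (m + 1) (ball (0 : E (m + 1)) t)) ^ ((m + 1) * (m - 1)) *
        calF (ball c r) := by
  obtain ⟨x₀, hx₀⟩ := hΩ.1
  have hs : (fun x : E (m + 1) => -x₀ + (1 : ℝ) • x) =
      sim (LinearIsometryEquiv.refl ℝ (E (m + 1))) (-x₀) 1 := rfl
  have hF : calF ((fun x : E (m + 1) => -x₀ + (1 : ℝ) • x) '' Ω) = calF Ω :=
    calF_homothety (by omega) Ω (-x₀) one_pos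
  have hP : perimeter (m + 1) ((fun x : E (m + 1) => -x₀ + (1 : ℝ) • x) '' Ω) =
      perimeter (m + 1) Ω := by
    rw [hs, perimeter_sim _ _ one_pos, one_pow, one_mul]
  have hV : volume ((fun x : E (m + 1) => -x₀ + (1 : ℝ) • x) '' Ω) = volume Ω := by
    have e1 : (fun x : E (m + 1) => -x₀ + (1 : ℝ) • x) '' Ω = (fun x => x₀ + x) ⁻¹' Ω := by
      ext y
      constructor
      · rintro ⟨x, hx, rfl⟩
        change x₀ + (-x₀ + (1 : ℝ) • x) ∈ Ω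
        rw [one_smul, add_neg_cancel_left]
        exact hx
      · intro hy
        refine ⟨x₀ + y, hy, ?_⟩
        change -x₀ + (1 : ℝ) • (x₀ + y) = y
        rw [one_smul, neg_add_cancel_left]
    rw [e1, measure_preimage_add]
  have hΩ' : ConvexDomain ((fun x : E (m + 1) => -x₀ + (1 : ℝ) • x) '' Ω) := by
    rw [hs]
    exact convexDomain_sim _ _ one_pos hΩ
  have h0 : (0 : E (m + 1)) ∈ (fun x : E (m + 1) => -x₀ + (1 : ℝ) • x) '' Ω :=
    ⟨x₀, hx₀, by simp⟩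
  rw [← hF, ← hP]
  exact univ_zero hm hΩ' h0 ht (hvol.trans hV.symm) c hr

end BM939
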