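import Pool.Agent.Lib.MP_939ffc_anG.Main8

/-! # MP_939ffc_an: volume at most width times projection -/

open MeasureTheory Set Metric Filter Topology
open scoped ENNReal NNReal Pointwise
open Pool.Agent.Lib.MP_deb14e_an Pool.Agent.MPdeb14eM

namespace BM939

/-- PROOF: `Ω ⊆ {x | x 0 ∈ I, tl x ∈ tl '' Ω}` with an interval `I` of length `w` (`I = [inf, sup]` of the coordinate 0),
and the volume of `E (m + 1)` is the product of those of `ℝ` and `E m` (see Fib.lean of MP_deb14e_anM). -/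
theorem vol_le_fibre {m : ℕ} {Ω : Set (E (m + 1))} (hΩ : ConvexDomain Ω) {w : ℝ}
    (hw : ∀ x ∈ Ω, ∀ y ∈ Ω, x 0 - y 0 ≤ w) :
    volume Ω ≤ ENNReal.ofReal w * volume ((tl : E (m + 1) → E m) '' Ω) := by
  have hm : MeasurableSet Ω := hΩ.2.2.1.measurableSet
  rw [← (measurePreserving_cons (d := m)).measure_preimage hm.nullMeasurableSet]
  have hsub : (fun p : ℝ × E m => cons p.1 p.2) ⁻¹' Ω ⊆
      ((fun x : E (m + 1) => x 0) '' Ω) ×ˢ ((tl : E (m + 1) → E m) '' Ω) := by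
    rintro ⟨s, y⟩ hp
    exact ⟨⟨cons s y, hp, cons_zero s y⟩, ⟨cons s y, hp, tl_cons s y⟩⟩
  refine (measure_mono hsub).trans ?_
  rw [Measure.prod_prod]
  refine mul_le_mul_left ?_ _
  refine (Real.volume_le_diam _).trans ?_
  refine Metric.ediam_le ?_
  rintro _ ⟨x, hx, rfl⟩ _ ⟨y, hy, rfl⟩
  rw [edist_dist, Real.dist_eq]
  refine ENNReal.ofReal_le_ofReal ?_
  exact abs_le.2 ⟨by have := hw y hy x hx; linarith, hw x hx y hy⟩

end BM939
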