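import Pool.Agent.Lib.MP_939ffc_anG.Main8
import Pool.Agent.Lib.MP_deb14e_anM.Lip

/-! # MP_939ffc_an: the projection of a bounded open set is at most its boundary -/

open MeasureTheory Set Metric Filter Topology
open scoped ENNReal NNReal Pointwise
open Pool.Agent.Lib.MP_deb14e_an Pool.Agent.MPdeb14eM

namespace BM939

private theorem widthB_sub {m : ℕ} {Ω : Set (E (m + 1))} (ho : IsOpen Ω)
    (hb : Bornology.IsBounded Ω) :
    (tl : E (m + 1) → E m) '' Ω ⊆ (tl : E (m + 1) → E m) '' frontier Ω := by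
  rintro y ⟨x, hx, rfl⟩
  have hγ : Continuous fun t : ℝ => cons t (tl x) :=
    continuous_cons.comp (continuous_id.prodMk continuous_const)
  by_contra hcon
  have hno : ∀ t : ℝ, cons t (tl x) ∉ frontier Ω := by
    intro t ht
    exact hcon ⟨cons t (tl x), ht, tl_cons t (tl x)⟩
  have hclopen : IsClopen ((fun t : ℝ => cons t (tl x)) ⁻¹' Ω) := by
    refine ⟨?_, ho.preimage hγ⟩
    have h1 : (fun t : ℝ => cons t (tl x)) ⁻¹' Ω =
        (fun t : ℝ => cons t (tl x)) ⁻¹' (closure Ω) := by
      ext t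
      constructor
      · exact fun h => subset_closure h
      · intro h
        by_contra hn
        refine hno t ?_
        rw [ho.frontier_eq]
        exact ⟨h, hn⟩
    rw [h1]
    exact isClosed_closure.preimage hγ
  rcases isClopen_iff.1 hclopen with h2 | h2
  · have h3 : x 0 ∈ ((fun t : ℝ => cons t (tl x)) ⁻¹' Ω) := by
      show cons (x 0) (tl x) ∈ Ω
      rw [cons_tl]; exact hx
    rw [h2] at h3
    exact h3
  · obtain ⟨R, hR⟩ := hb.exists_norm_le
    have h3 : (|R| + 1) ∈ ((fun t : ℝ => cons t (tl x)) ⁻¹' Ω) := by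
      rw [h2]; exact mem_univ _
    have h4 := hR _ h3
    have h5 := norm_cons_sq (|R| + 1) (tl x)
    have h6 := sq_nonneg ‖tl x‖
    have h7 : 0 ≤ ‖cons (|R| + 1) (tl x)‖ := norm_nonneg _
    have h8 := le_abs_self R
    have h9 := abs_nonneg R
    nlinarith

/-- PROOF: `tl '' Ω ⊆ tl '' frontier Ω` (a line through a point of the bounded open set `Ω` leaves it), `tl` is
1-Lipschitz (`Lip_lipschitz_tl`, `LipschitzWith.hausdorffMeasure_image_le`), and `hausdorff_eq`. -/
theorem haus_tl {m : ℕ} {Ω : Set (E (m + 1))} (hΩ : ConvexDomain Ω) :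
    ENNReal.ofReal (kap m) * volume ((tl : E (m + 1) → E m) '' Ω) ≤
      Measure.hausdorffMeasure (m : ℝ) (frontier Ω) := by
  rw [← hausdorff_eq]
  refine (measure_mono (widthB_sub hΩ.2.2.1 hΩ.2.1)).trans ?_
  have h := (Lip_lipschitz_tl (d := m)).hausdorffMeasure_image_le (Nat.cast_nonneg m)
    (frontier Ω)
  rw [ENNReal.coe_one, ENNReal.one_rpow, one_mul] at h
  exact h

end BM939
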