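import Pool.Agent.Lib.MP_939ffc_anH.WidthA
import Pool.Agent.Lib.MP_939ffc_anH.WidthB
import Pool.Agent.Lib.MP_939ffc_anD.Iso

/-! # MP_939ffc_an: the volume is at most width times perimeter -/

open MeasureTheory Set Metric Filter Topology
open scoped ENNReal NNReal Pointwise
open Pool.Agent.Lib.MP_deb14e_an Pool.Agent.MPdeb14eM

namespace BM939

/-- The inequality in the direction of the first coordinate. -/
private theorem widthC_zero {m : ℕ} {Ω : Set (E (m + 1))} (hΩ : ConvexDomain Ω) {w : ℝ}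
    (hw : ∀ x ∈ Ω, ∀ y ∈ Ω, x 0 - y 0 ≤ w) :
    (volume Ω).toReal * (hausdorffConst m * kap m) ≤ w * perimeter (m + 1) Ω := by
  have hw0 : 0 ≤ w := by
    obtain ⟨x, hx⟩ := hΩ.1
    have := hw x hx x hx
    linarith
  have hk := kap_pos m
  have hc : 0 < hausdorffConst (m : ℝ) := hausdorffConst_pos (Nat.cast_nonneg m)
  have h1 := vol_le_fibre hΩ hw
  have h2 := haus_tl hΩ
  have hfin := frontier_lt_top hΩ
  have h3 : ENNReal.ofReal (kap m) * volume Ω ≤
      ENNReal.ofReal w * Measure.hausdorffMeasure (m : ℝ) (frontier Ω) := by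
    calc ENNReal.ofReal (kap m) * volume Ω
        ≤ ENNReal.ofReal (kap m) * (ENNReal.ofReal w * volume ((tl : E (m + 1) → E m) '' Ω)) := by gcongr
      _ = ENNReal.ofReal w * (ENNReal.ofReal (kap m) * volume ((tl : E (m + 1) → E m) '' Ω)) := by ring
      _ ≤ _ := by gcongr
  have h4 := ENNReal.toReal_mono (ENNReal.mul_ne_top ENNReal.ofReal_ne_top hfin.ne) h3
  rw [ENNReal.toReal_mul, ENNReal.toReal_mul, ENNReal.toReal_ofReal hk.le, ENNReal.toReal_ofReal hw0] at h4
  rw [perimeter_eq]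
  have h5 := mul_le_mul_of_nonneg_left h4 hc.le
  nlinarith [h5]

/-- The volume is at most the width in any direction times a multiple of the perimeter. -/
theorem width {m : ℕ} {Ω : Set (E (m + 1))} (hΩ : ConvexDomain Ω) {u : E (m + 1)} (hu : ‖u‖ = 1) {w : ℝ}
    (hw : ∀ x ∈ Ω, ∀ y ∈ Ω, (inner ℝ u (x - y) : ℝ) ≤ w) :
    (volume Ω).toReal * (hausdorffConst m * kap m) ≤ w * perimeter (m + 1) Ω := by
  set v : E (m + 1) := EuclideanSpace.single (0 : Fin (m + 1)) (1 : ℝ) with hv
  have hv1 : ‖v‖ = 1 := by rw [hv]; simp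
  set e : E (m + 1) ≃ₗᵢ[ℝ] E (m + 1) := (ℝ ∙ (u - v))ᗮ.reflection with he
  have heu : e u = v := Submodule.reflection_sub (hu.trans hv1.symm)
  have h0 : ∀ x : E (m + 1), (e x) 0 = inner ℝ u x := by
    intro x
    rw [← e.inner_map_map u x, heu, hv, EuclideanSpace.inner_single_left]
    simp
  have hs : ∀ A : Set (E (m + 1)), e '' A = sim e 0 1 '' A := by
    intro A
    congr 1
    ext1 x
    change e x = 0 + (1 : ℝ) • e x
    rw [one_smul, zero_add]
  have hD : ConvexDomain (e '' Ω) := by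
    rw [hs]
    exact convexDomain_sim e 0 one_pos hΩ
  have hP : perimeter (m + 1) (e '' Ω) = perimeter (m + 1) Ω := by
    rw [hs, perimeter_sim _ _ one_pos, one_pow, one_mul]
  have hV : volume (e '' Ω) = volume Ω := by
    have h1 : e '' Ω = e.symm ⁻¹' Ω := by
      ext x
      rw [Set.mem_preimage]
      exact ⟨fun ⟨y, hy, hyx⟩ => by rw [← hyx, e.symm_apply_apply]; exact hy,
        fun h => ⟨e.symm x, h, e.apply_symm_apply x⟩⟩
    rw [h1]
    exact e.symm.measurePreserving.measure_preimage hΩ.2.2.1.measurableSet.nullMeasurableSet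
  have key := widthC_zero hD (w := w) (by
    rintro _ ⟨x, hx, rfl⟩ _ ⟨y, hy, rfl⟩
    rw [h0, h0, ← inner_sub_right]
    exact hw x hx y hy)
  rwa [hP, hV] at key

end BM939
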